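import Pool.Agent.Helper37.LL.Final

/-!
# MP_5ae62c_nt: no local lifting is compatible with all global liftings

For every finite field `𝔽` put `K = 𝔽(T)`, `F = K_∞ = 𝔽((1/T))`, `G = GL₂`, `ρ = id`.
There is no map `l : Irr(GL₂(F)) → Irr(GL₂(F))` such that for every automorphic representation `π`
of `GL₂(𝔸_K)` with global lifting `Π` the component of `Π` at `∞` is `l(π_∞)`.

Proof: there are an automorphic representation `π₁` with Steinberg component at `∞` and trivial
components at all other places, whose (isobaric) lifting is the trivial representation
`|.|^{1/2} ⊞ |.|^{-1/2}`, and a cuspidal automorphic representation `π₂` with the same component at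
`∞`, which is its own lifting.
-/

set_option autoImplicit false

open Pool.Agent.Helper37.LL

namespace Pool.Agent.Results.MP_5ae62c_nt.NoLocalLifting

theorem result (𝔽 : Type) [Field 𝔽] [Finite 𝔽] :
    ¬Spec.LocalLiftingExists (Spec.val 𝔽) (Spec.qv 𝔽) none :=
  Pool.Agent.Helper37.LL.main 𝔽

end Pool.Agent.Results.MP_5ae62c_nt.NoLocalLifting
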